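import Mathlib
import Pool.Agent.Work.MP_c13439_an.Defs
import Pool.Agent.Work.MP_c13439_an.Frame

set_option autoImplicit false

namespace Pool.Agent.Results.MP_c13439_an.CriticalExponents

open Finset Pool.Agent.Work.MP_c13439_an Pool.Agent.Work.MP_c13439_an.Summation
  Pool.Agent.Work.MP_c13439_an.Frame

/-- If `∑ a_n ^ p` converges, then `∑ b_n ^ q / (log (n + 2)) ^ s` converges and is at most
`C * (∑ a_n ^ p) ^ (q / p)`. -/
def Controls (p q s C : ℝ) (a b : ℕ → ℝ) : Prop :=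
  (Summable fun n : ℕ => (a n) ^ p) →
    (Summable fun n : ℕ => (b n) ^ q / (Real.log ((n : ℝ) + 2)) ^ s) ∧
      ∑' n : ℕ, (b n) ^ q / (Real.log ((n : ℝ) + 2)) ^ s ≤ C * (∑' n : ℕ, (a n) ^ p) ^ (q / p)

/-- The real sequence part: a constant `C'` which works for every `b` with the weighted bound. -/
theorem uniform (p q s : ℝ) (hp : 0 < p) (hpq : p ≤ q) (hs : p < q ∨ p + 1 ≤ s) :
    ∃ K : ℝ, 0 < K ∧ ∀ (b : ℕ → ℝ) (B : ℝ), (∀ n, 0 ≤ b n) → Antitone b →
      (∀ N, ∑ n ∈ range N, (b n) ^ p * wt p n ≤ B) →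
      ∀ N, ∑ n ∈ range N, (b n) ^ q / (Real.log ((n : ℝ) + 2)) ^ s ≤ K * B ^ (q / p) := by
  rcases lt_or_eq_of_le hpq with h | h
  · exact larger p q s hp h
  · subst h
    have hs' : p + 1 ≤ s := by
      rcases hs with h | h
      · exact absurd h (lt_irrefl _)
      · exact h
    have hlog2 : 0 < Real.log 2 := Real.log_pos (by norm_num)
    refine ⟨(Real.log 2) ^ (-(s - (p + 1))), by positivity, ?_⟩
    intro b B hb0 _ hB N
    rw [div_self hp.ne', Real.rpow_one]
    exact same p s hs' b B hb0 hB N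

theorem controls (p q s K C S : ℝ) (a b : ℕ → ℝ) (hb0 : ∀ n, 0 ≤ b n) (hC : 0 ≤ C) (hS : 0 ≤ S)
    (hSa : S = ∑' n, (a n) ^ p)
    (h : ∀ N, ∑ n ∈ range N, (b n) ^ q / (Real.log ((n : ℝ) + 2)) ^ s ≤ K * (C * S) ^ (q / p)) :
    (Summable fun n : ℕ => (b n) ^ q / (Real.log ((n : ℝ) + 2)) ^ s) ∧
      ∑' n : ℕ, (b n) ^ q / (Real.log ((n : ℝ) + 2)) ^ s ≤
        K * C ^ (q / p) * (∑' n : ℕ, (a n) ^ p) ^ (q / p) := by
  have hnn : ∀ n : ℕ, 0 ≤ (b n) ^ q / (Real.log ((n : ℝ) + 2)) ^ s := fun n =>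
    div_nonneg (Real.rpow_nonneg (hb0 n) _) (Real.rpow_nonneg (log_pos' n).le _)
  have hs : Summable fun n : ℕ => (b n) ^ q / (Real.log ((n : ℝ) + 2)) ^ s :=
    summable_of_sum_range_le hnn h
  refine ⟨hs, (hs.tsum_le_of_sum_range_le h).trans (le_of_eq ?_)⟩
  rw [Real.mul_rpow hC hS, mul_assoc, hSa]

universe u v w

/-- Duality of the entropy classes of operators between arbitrary normed spaces, with a logarithmic
weight at the same exponent and without loss at every larger exponent. -/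
theorem result (p q s : ℝ) (hp : 0 < p) (hpq : p ≤ q) (hs : p < q ∨ p + 1 ≤ s) :
    ∃ C : ℝ, 0 < C ∧
      ∀ (𝕜 : Type u) [RCLike 𝕜] (X : Type v) [NormedAddCommGroup X] [NormedSpace 𝕜 X]
        (Y : Type w) [NormedAddCommGroup Y] [NormedSpace 𝕜 Y] (T : X →L[𝕜] Y),
        Controls p q s C (entropyNumber T) (entropyNumber (adjointMap T)) ∧
        Controls p q s C (entropyNumber (adjointMap T)) (entropyNumber T) := by
  obtain ⟨C, hC, hw⟩ := weighted p hp
  obtain ⟨K, hK, hl⟩ := uniform p q s hp hpq hs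
  have h2p : (1 : ℝ) ≤ 2 ^ p := Real.one_le_rpow (by norm_num) hp.le
  have hqp : 0 < q / p := div_pos (by linarith) hp
  refine ⟨K * (2 ^ p * C) ^ (q / p), by positivity, ?_⟩
  intro 𝕜 _ X _ _ Y _ _ T
  constructor
  · intro h
    have hS : 0 ≤ ∑' n, (entropyNumber T n) ^ p :=
      tsum_nonneg fun n => Real.rpow_nonneg (ent_nonneg T n) p
    have h1 := fwd_w T p C hp hC hw h
    have h2 := controls p q s K C _ (entropyNumber T) (entropyNumber (adjointMap T))
      (fun n => ent_nonneg (adjointMap T) n) hC.le hS rfl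
      (hl _ _ (fun n => ent_nonneg (adjointMap T) n) (fun m n hmn => ent_anti _ hmn) h1)
    refine ⟨h2.1, h2.2.trans ?_⟩
    refine mul_le_mul_of_nonneg_right ?_ (Real.rpow_nonneg hS _)
    refine mul_le_mul_of_nonneg_left ?_ hK.le
    exact Real.rpow_le_rpow hC.le (by nlinarith) hqp.le
  · intro h
    have hS : 0 ≤ ∑' n, (entropyNumber (adjointMap T) n) ^ p :=
      tsum_nonneg fun n => Real.rpow_nonneg (ent_nonneg _ n) p
    have h1 := bwd_w T p C hp hC hw h
    exact controls p q s K (2 ^ p * C) _ (entropyNumber (adjointMap T)) (entropyNumber T)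
      (fun n => ent_nonneg T n) (by positivity) hS rfl
      (hl _ _ (fun n => ent_nonneg T n) (fun m n hmn => ent_anti _ hmn) h1)

end Pool.Agent.Results.MP_c13439_an.CriticalExponents
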