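import Mathlib
import Pool.Agent.Work.MP_c13439_an.Defs
import Pool.Agent.Work.MP_c13439_pq.All

set_option autoImplicit false

/-!
# The duality problem for entropy classes, exponents `p < 1`

For `0 < p < 1` the entropy numbers of a bounded linear operator `T` between arbitrary normed
spaces are `p`-summable if and only if the entropy numbers of its adjoint are, and each sum is at
most a constant, depending only on `p`, times the other.

Proof (`Work/MP_c13439_pq`): reduction to the identity between two norms on `ℝ^N`; real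
interpolation with a Euclidean norm, which is `K`-convex; a bootstrap argument in the manner of
Pisier's proof of Milman's theorem on `M`-ellipsoids, for operators instead of spaces.
-/

namespace Pool.Agent.Results.MP_c13439_an.ExponentsBelowOne

open Pool.Agent.Work.MP_c13439_an

universe u v w

theorem result (p : ℝ) (hp : 0 < p) (hp1 : p < 1) :
    ∃ C : ℝ, 0 < C ∧ ∀ (𝕜 : Type u) [RCLike 𝕜] (X : Type v) [NormedAddCommGroup X] [NormedSpace 𝕜 X]
      (Y : Type w) [NormedAddCommGroup Y] [NormedSpace 𝕜 Y] (T : X →L[𝕜] Y),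
      ((Summable fun n : ℕ => entropyNumber T n ^ p) ↔
        Summable fun n : ℕ => entropyNumber (adjointMap T) n ^ p) ∧
      ∑' n : ℕ, entropyNumber (adjointMap T) n ^ p ≤ C * ∑' n : ℕ, entropyNumber T n ^ p ∧
      ∑' n : ℕ, entropyNumber T n ^ p ≤ C * ∑' n : ℕ, entropyNumber (adjointMap T) n ^ p := by
  obtain ⟨C, h⟩ := Pool.PQ.main_sum.{u, v, w} p hp hp1
  refine ⟨max C 1, by positivity, fun 𝕜 _ X _ _ Y _ _ T => ?_⟩
  obtain ⟨h1, h2, h3⟩ := h 𝕜 X Y T
  exact ⟨h1, h2.trans (mul_le_mul_of_nonneg_right (le_max_left _ _) (tsum_nonneg fun n =>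
      Real.rpow_nonneg (Pool.PQ.en_nonneg' _ n) p)),
    h3.trans (mul_le_mul_of_nonneg_right (le_max_left _ _) (tsum_nonneg fun n =>
      Real.rpow_nonneg (Pool.PQ.en_nonneg' _ n) p))⟩

end Pool.Agent.Results.MP_c13439_an.ExponentsBelowOne
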