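import Mathlib
import Pool.Agent.Work.MP_c13439_tree.PICK
import Pool.Agent.Work.MP_c13439_tree.HEAVY
import Pool.Agent.Work.MP_c13439_tree.TWO
import Pool.Agent.Work.MP_c13439_tree.TEL
import Pool.Agent.Work.MP_c13439_tree.NET
import Pool.Agent.Work.MP_c13439_tree.COV
import Pool.Agent.Work.MP_c13439_tree.TREE
import Pool.Agent.Work.MP_c13439_tree.BAD
import Pool.Agent.Work.MP_c13439_tree.CODE
import Pool.Agent.Work.MP_c13439_tree.PAR
import Pool.Agent.Work.MP_c13439_tree.CORE
import Pool.Agent.Work.MP_c13439_tree.OPU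
import Pool.Agent.Work.MP_c13439_tree.OPL
import Pool.Agent.Work.MP_c13439_tree.IDEAL
import Pool.Agent.Work.MP_c13439_tree.ADD
import Pool.Agent.Work.MP_c13439_tree.FIN
import Pool.Agent.Work.MP_c13439_tree.PIECE
import Pool.Agent.Work.MP_c13439_tree.SUMX
import Pool.Agent.Work.MP_c13439_tree.SEQ
import Pool.Agent.Work.MP_c13439_tree.SERIES
import Pool.Agent.Work.MP_c13439_tree.MAIN

set_option autoImplicit false

namespace Pool.Agent.Results.MP_c13439_an.PointwiseDualityFails

open Pool.Agent.Work.MP_c13439_an Pool.Agent.Work.MP_c13439_tree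

/-- Pietsch's pointwise duality conjecture for entropy numbers is false: there is one compact
operator `T` on one Banach space such that for no constants `a`, `b` the inequality
`e_{bn}(T*) ≤ a e_n(T)` holds for all `n ≥ 1`, and for no `a`, `b` the inequality
`e_{bn}(T) ≤ a e_n(T*)` holds for all `n ≥ 1`. Here `e_n` is `entropyNumber _ (n - 1)`. -/
theorem result (𝕜 : Type) [RCLike 𝕜] :
    ∃ (X : Type) (_ : NormedAddCommGroup X) (_ : NormedSpace 𝕜 X) (_ : CompleteSpace X)
      (T : X →L[𝕜] X), IsCompactOperator T ∧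
      ∀ (a : ℝ) (b : ℕ), 1 ≤ b →
        (∃ n : ℕ, 1 ≤ n ∧
          a * entropyNumber T (n - 1) < entropyNumber (adjointMap T) (b * n - 1)) ∧
        (∃ n : ℕ, 1 ≤ n ∧
          a * entropyNumber (adjointMap T) (n - 1) < entropyNumber T (b * n - 1)) := by
  have hTWO : Stmt_TWO := blk_TWO blk_PICK blk_HEAVY
  have hCOV : Stmt_COV := blk_COV hTWO blk_TEL blk_NET
  have hCORE : Stmt_CORE := blk_CORE hCOV blk_TREE blk_BAD blk_CODE blk_PAR
  have hPIECE : Stmt_PIECE := blk_PIECE hCORE blk_OPU blk_OPL blk_IDEAL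
  have hSERIES : Stmt_SERIES := blk_SERIES blk_IDEAL blk_ADD
  exact blk_MAIN blk_FIN hPIECE blk_SUMX blk_SEQ hSERIES 𝕜

end Pool.Agent.Results.MP_c13439_an.PointwiseDualityFails
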