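import Mathlib
import Pool.Agent.Work.MP_c13439_an.Defs
import Pool.Agent.Work.MP_c13439_an.Frame
import Pool.Agent.Work.MP_c13439_pq.All

set_option autoImplicit false

namespace Pool.Agent.Results.MP_c13439_an.PolynomialRates

open Pool.Agent.Work.MP_c13439_an Pool.Agent.Work.MP_c13439_an.Summation
  Pool.Agent.Work.MP_c13439_an.Frame

universe u v w

/-- All exponents, with a power of the logarithm. -/
theorem withLog (α : ℝ) (hα : 0 < α) :
    ∃ C : ℝ, 0 < C ∧
      ∀ (𝕜 : Type u) [RCLike 𝕜] (X : Type v) [NormedAddCommGroup X] [NormedSpace 𝕜 X]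
        (Y : Type w) [NormedAddCommGroup Y] [NormedSpace 𝕜 Y] (T : X →L[𝕜] Y) (M : ℝ),
        ((∀ n : ℕ, entropyNumber T n ≤ M / ((n : ℝ) + 1) ^ α) →
          ∀ n : ℕ, entropyNumber (adjointMap T) n ≤
            C * M * (Real.log ((n : ℝ) + 2)) ^ (1 + α) / ((n : ℝ) + 1) ^ α) ∧
        ((∀ n : ℕ, entropyNumber (adjointMap T) n ≤ M / ((n : ℝ) + 1) ^ α) →
          ∀ n : ℕ, entropyNumber T n ≤
            C * M * (Real.log ((n : ℝ) + 2)) ^ (1 + α) / ((n : ℝ) + 1) ^ α) := by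
  obtain ⟨C, hC, hw⟩ := pointwise α hα
  refine ⟨2 * C, by positivity, ?_⟩
  intro 𝕜 _ X _ _ Y _ _ T M
  constructor
  · intro h n
    have hM : 0 ≤ M := by
      have := h 0
      have h0 := ent_nonneg T 0
      simp only [Nat.cast_zero, zero_add, Real.one_rpow, div_one] at this
      linarith
    refine (fwd_pt T α C M hC hw h n).trans ?_
    have hl : 0 < Real.log ((n : ℝ) + 2) := log_pos' n
    have e : 2 * C * M * (Real.log ((n : ℝ) + 2)) ^ (1 + α) / ((n : ℝ) + 1) ^ α =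
        C * M * (Real.log ((n : ℝ) + 2)) ^ (1 + α) / ((n : ℝ) + 1) ^ α +
        C * M * (Real.log ((n : ℝ) + 2)) ^ (1 + α) / ((n : ℝ) + 1) ^ α := by ring
    rw [e]
    have : 0 ≤ C * M * (Real.log ((n : ℝ) + 2)) ^ (1 + α) / ((n : ℝ) + 1) ^ α := by positivity
    linarith
  · intro h n
    exact bwd_pt T α C M hC hw h n

/-- Exponents larger than one, without loss. -/
theorem noLoss (α : ℝ) (hα : 1 < α) :
    ∃ C : ℝ, 0 < C ∧
      ∀ (𝕜 : Type u) [RCLike 𝕜] (X : Type v) [NormedAddCommGroup X] [NormedSpace 𝕜 X]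
        (Y : Type w) [NormedAddCommGroup Y] [NormedSpace 𝕜 Y] (T : X →L[𝕜] Y) (M : ℝ),
        ((∀ n : ℕ, entropyNumber T n ≤ M / ((n : ℝ) + 1) ^ α) →
          ∀ n : ℕ, entropyNumber (adjointMap T) n ≤ C * M / ((n : ℝ) + 1) ^ α) ∧
        ((∀ n : ℕ, entropyNumber (adjointMap T) n ≤ M / ((n : ℝ) + 1) ^ α) →
          ∀ n : ℕ, entropyNumber T n ≤ C * M / ((n : ℝ) + 1) ^ α) := by
  obtain ⟨C, h⟩ := Pool.PQ.main_rate.{u, v, w} α hα
  have e : ∀ (M : ℝ) (n : ℕ), M / ((n : ℝ) + 1) ^ α = M * ((n : ℝ) + 1) ^ (-α) := by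
    intro M n
    rw [Real.rpow_neg (by positivity), div_eq_mul_inv]
  refine ⟨max C 1, by positivity, fun 𝕜 _ X _ _ Y _ _ T M => ⟨fun hs n => ?_, fun hs n => ?_⟩⟩
  · have h0 : 0 ≤ M * ((n : ℝ) + 1) ^ (-α) := by
      rw [← e]; exact (ent_nonneg T n).trans (hs n)
    rw [e, mul_assoc]
    refine ((h 𝕜 X Y T M).1 (fun k => ?_) n).trans
      (mul_le_mul_of_nonneg_right (le_max_left _ _) h0)
    rw [← e]; exact hs k
  · have h0 : 0 ≤ M * ((n : ℝ) + 1) ^ (-α) := by
      rw [← e]; exact (ent_nonneg (adjointMap T) n).trans (hs n)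
    rw [e, mul_assoc]
    refine ((h 𝕜 X Y T M).2 (fun k => ?_) n).trans
      (mul_le_mul_of_nonneg_right (le_max_left _ _) h0)
    rw [← e]; exact hs k

/-- Polynomial rates of decay of entropy numbers pass to the adjoint: without any loss for
`α > 1`, and up to a power of the logarithm in general. -/
theorem result (α : ℝ) (hα : 0 < α) :
    ∃ C : ℝ, 0 < C ∧
      ∀ (𝕜 : Type u) [RCLike 𝕜] (X : Type v) [NormedAddCommGroup X] [NormedSpace 𝕜 X]
        (Y : Type w) [NormedAddCommGroup Y] [NormedSpace 𝕜 Y] (T : X →L[𝕜] Y) (M : ℝ),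
        ((∀ n : ℕ, entropyNumber T n ≤ M / ((n : ℝ) + 1) ^ α) →
          ∀ n : ℕ, entropyNumber (adjointMap T) n ≤
            C * M * (if 1 < α then 1 else (Real.log ((n : ℝ) + 2)) ^ (1 + α)) /
              ((n : ℝ) + 1) ^ α) ∧
        ((∀ n : ℕ, entropyNumber (adjointMap T) n ≤ M / ((n : ℝ) + 1) ^ α) →
          ∀ n : ℕ, entropyNumber T n ≤
            C * M * (if 1 < α then 1 else (Real.log ((n : ℝ) + 2)) ^ (1 + α)) /
              ((n : ℝ) + 1) ^ α) := by
  by_cases h1 : 1 < α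
  · simp only [h1, if_true, mul_one]
    exact noLoss α h1
  · simp only [h1, if_false]
    exact withLog α hα

end Pool.Agent.Results.MP_c13439_an.PolynomialRates
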